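import Pool.Agent.Y347.CO.Stm3

/-!
CO-AFFSH: affine families of maximal size which are not good.
-/

set_option autoImplicit false

namespace Pool.Agent.Y474.CO

open Finset Function
open Pool.Agent.Y347.CO (Good S_AFFSH)

/-- the proper nonempty subsets -/
def PS (d : ℕ) : Finset (Finset (Fin (d + 1))) := univ.filter fun T => T ≠ ∅ ∧ T ≠ univ

theorem exists_sec (d : ℕ) (T : Finset (Fin (d + 1))) (h : T ∈ PS d) :
    ∃ x : Fin d → Fin (d + 1), univ.image x = T := by
  rw [PS, mem_filter] at h
  obtain ⟨-, h1, h2⟩ := h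
  have hne : T.Nonempty := nonempty_iff_ne_empty.2 h1
  have hc : T.card ≤ d := by
    have h3 : T.card < (univ : Finset (Fin (d + 1))).card := card_lt_card (ssubset_univ_iff.2 h2)
    rw [card_univ, Fintype.card_fin] at h3
    omega
  have hc' : Fintype.card T ≤ Fintype.card (Fin d) := by
    rw [Fintype.card_coe, Fintype.card_fin]
    exact hc
  obtain ⟨f⟩ := Function.Embedding.nonempty_of_card_le hc'
  have hne' : Nonempty T := hne.to_subtype
  refine ⟨fun i => ((invFun f i : T) : Fin (d + 1)), ?_⟩
  ext t
  rw [mem_image]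
  constructor
  · rintro ⟨i, -, rfl⟩
    exact (invFun f i).2
  · intro ht
    exact ⟨f ⟨t, ht⟩, mem_univ _, by rw [leftInverse_invFun f.injective]⟩

open Classical in
/-- a word with given range -/
noncomputable def sec (d : ℕ) (T : Finset (Fin (d + 1))) : Fin d → Fin (d + 1) :=
  if h : T ∈ PS d then (exists_sec d T h).choose else fun _ => 0

theorem sec_spec (d : ℕ) (T : Finset (Fin (d + 1))) (h : T ∈ PS d) :
    univ.image (sec d T) = T := by
  rw [sec, dif_pos h]
  exact (exists_sec d T h).choose_spec

/-- the chosen words -/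
noncomputable def W (d : ℕ) : Finset (Fin d → Fin (d + 1)) := (PS d).image (sec d)

theorem sumW (d : ℕ) (γ : Finset (Fin (d + 1))) :
    ∑ w ∈ W d, (if ∀ i, w i ∈ γ then (1 : ZMod 2) else 0) =
      (((PS d).filter (fun T => T ⊆ γ)).card : ZMod 2) := by
  rw [W, sum_image]
  · rw [← Finset.sum_boole]
    refine sum_congr rfl fun T hT => if_congr ?_ rfl rfl
    conv_rhs => rw [← sec_spec d T hT, image_subset_iff]
    simp
  · intro T hT T' hT' h
    rw [← sec_spec d T hT, ← sec_spec d T' hT', h]

theorem par (d : ℕ) (γ : Finset (Fin (d + 1))) (h1 : γ.Nonempty)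
    (h2 : (((PS d).filter (fun T => T ⊆ γ)).card : ZMod 2) = 0) : γ = univ := by
  by_contra h3
  have h4 : (PS d).filter (fun T => T ⊆ γ) = γ.powerset.erase ∅ := by
    ext T
    rw [mem_filter, PS, mem_filter, mem_erase, mem_powerset]
    constructor
    · rintro ⟨⟨-, h5, -⟩, h6⟩
      exact ⟨h5, h6⟩
    · rintro ⟨h5, h6⟩
      refine ⟨⟨mem_univ _, h5, fun h7 => h3 ?_⟩, h6⟩
      rw [h7] at h6
      exact univ_subset_iff.1 h6
  rw [h4, card_erase_of_mem (empty_mem_powerset _), card_powerset,
    ZMod.natCast_eq_zero_iff] at h2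
  have h5 : 2 ∣ 2 ^ γ.card := dvd_pow_self 2 (card_pos.2 h1).ne'
  have h6 : 0 < 2 ^ γ.card := by positivity
  omega

section
variable (d m : ℕ)

/-- the word in the block `j` -/
def bl (j : Fin m) (w : Fin d → Fin (d + 1)) : Fin d → Fin ((d + 1) * m) :=
  fun i => finProdFinEquiv (w i, j)

/-- the condition of the block `j` -/
noncomputable def cond (A : Finset (Fin d → Fin ((d + 1) * m))) (j : Fin m) : ZMod 2 :=
  ∑ w ∈ W d, if bl d m j w ∈ A then 1 else 0

theorem cond_symm (A B : Finset (Fin d → Fin ((d + 1) * m))) (j : Fin m) :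
    cond d m (symmDiff A B) j = cond d m A j + cond d m B j := by
  unfold cond
  rw [← sum_add_distrib]
  refine sum_congr rfl fun w _ => ?_
  by_cases h1 : bl d m j w ∈ A <;> by_cases h2 : bl d m j w ∈ B <;>
    simp [mem_symmDiff, h1, h2]
  rfl

theorem const_mem (hd : 1 ≤ d) : (fun _ : Fin d => (0 : Fin (d + 1))) ∈ W d := by
  have h1 : ({0} : Finset (Fin (d + 1))) ∈ PS d := by
    rw [PS, mem_filter]
    refine ⟨mem_univ _, singleton_ne_empty _, fun h => ?_⟩
    have h2 := congrArg Finset.card h
    rw [card_singleton, card_univ, Fintype.card_fin] at h2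
    omega
  rw [W, mem_image]
  refine ⟨{0}, h1, ?_⟩
  funext i
  have h2 : sec d {0} i ∈ univ.image (sec d {0}) := mem_image_of_mem _ (mem_univ _)
  rw [sec_spec d _ h1, mem_singleton] at h2
  exact h2

theorem count (hd : 1 ≤ d) :
    (univ.filter fun A : Finset (Fin d → Fin ((d + 1) * m)) => ∀ j, cond d m A j = 1).card *
      2 ^ m = 2 ^ (((d + 1) * m) ^ d) := by
  classical
  have h1 : (univ : Finset (Finset (Fin d → Fin ((d + 1) * m)))).card =
      ∑ h : Fin m → ZMod 2, (univ.filter fun A => cond d m A = h).card :=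
    card_eq_sum_card_fiberwise (f := cond d m) (t := univ) (fun _ _ => mem_univ _)
  have h2 : ∀ h : Fin m → ZMod 2, (univ.filter fun A => cond d m A = h).card =
      (univ.filter fun A : Finset (Fin d → Fin ((d + 1) * m)) => ∀ j, cond d m A j = 1).card := by
    intro h
    obtain ⟨D, hD⟩ : ∃ D : Finset (Fin d → Fin ((d + 1) * m)),
      D = (univ.filter fun j => h j ≠ 1).image (fun j => bl d m j (fun _ => 0)) := ⟨_, rfl⟩
    have hc : ∀ j, cond d m D j = if h j ≠ 1 then 1 else 0 := by
      intro j
      unfold cond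
      rw [sum_eq_single_of_mem _ (const_mem d hd)]
      · refine if_congr ?_ rfl rfl
        rw [hD, mem_image]
        constructor
        · rintro ⟨j', hj', h3⟩
          have h4 := congrFun h3 ⟨0, hd⟩
          have h5 := finProdFinEquiv.injective h4
          rw [Prod.mk.injEq] at h5
          rw [← h5.2]
          exact (mem_filter.1 hj').2
        · intro hj
          exact ⟨j, mem_filter.2 ⟨mem_univ _, hj⟩, rfl⟩
      · intro w _ hw
        refine if_neg fun h3 => hw ?_
        rw [hD, mem_image] at h3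
        obtain ⟨j', -, h4⟩ := h3
        funext i
        have h5 := finProdFinEquiv.injective (congrFun h4 i)
        rw [Prod.mk.injEq] at h5
        exact h5.1.symm
    have z1 : ∀ z : ZMod 2, z + (if z ≠ 1 then 1 else 0) = 1 := by decide
    have z2 : ∀ z : ZMod 2, 1 + (if z ≠ 1 then 1 else 0) = z := by decide
    refine card_nbij' (fun A => symmDiff A D) (fun A => symmDiff A D) ?_ ?_ ?_ ?_
    · intro A hA
      have hA' : cond d m A = h := by simpa using hA
      have : ∀ j, cond d m (symmDiff A D) j = 1 := by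
        intro j
        rw [cond_symm, hc, hA']
        exact z1 _
      simpa using this
    · intro A hA
      have hA' : ∀ j, cond d m A j = 1 := by simpa using hA
      have : cond d m (symmDiff A D) = h := by
        funext j
        rw [cond_symm, hc, hA' j]
        exact z2 _
      simpa using this
    · intro A _
      exact symmDiff_symmDiff_cancel_right D A
    · intro A _
      exact symmDiff_symmDiff_cancel_right D A
  rw [Finset.card_univ, Fintype.card_finset, Fintype.card_fun, Fintype.card_fin,
    Fintype.card_fin] at h1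
  rw [h1, sum_congr rfl fun h _ => h2 h, sum_const, card_univ, Fintype.card_fun, ZMod.card,
    Fintype.card_fin, smul_eq_mul, mul_comm]

end

theorem done : Pool.Agent.Y347.CO.S_AFFSH := by
  classical
  intro d m hd
  refine ⟨univ.filter fun A => ∀ j, cond d m A j = 1, ?_, ?_, count d m hd⟩
  · rintro ⟨A, hA, γ, hγ, hdis, hU⟩
    rw [mem_filter] at hA hU
    obtain ⟨i, hi⟩ := hγ
    obtain ⟨⟨t, j⟩, hij⟩ := (finProdFinEquiv (m := d + 1) (n := m)).surjective i
    have h1 := hU.2 j
    have h0 : A ∪ Fintype.piFinset (fun _ : Fin d => γ) =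
        symmDiff A (Fintype.piFinset fun _ : Fin d => γ) := (hdis.symmDiff_eq_sup).symm
    rw [h0, cond_symm, hA.2 j] at h1
    have h2 : cond d m (Fintype.piFinset fun _ => γ) j = 0 := by simpa using h1
    obtain ⟨g, hg⟩ : ∃ g : Finset (Fin (d + 1)),
      g = univ.filter fun t => finProdFinEquiv (t, j) ∈ γ := ⟨_, rfl⟩
    have h3 : cond d m (Fintype.piFinset fun _ => γ) j =
        ∑ w ∈ W d, (if ∀ i, w i ∈ g then (1 : ZMod 2) else 0) := by
      refine sum_congr rfl fun w _ => if_congr ?_ rfl rfl
      rw [Fintype.mem_piFinset, hg]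
      simp [bl]
    rw [h3, sumW] at h2
    have h4 : g = univ := by
      refine par d g ⟨t, ?_⟩ h2
      rw [hg, mem_filter, hij]
      exact ⟨mem_univ _, hi⟩
    have h5 := hA.2 j
    have h6 : cond d m A j = 0 := by
      refine sum_eq_zero fun w _ => if_neg fun hw => ?_
      refine Finset.disjoint_left.1 hdis hw (Fintype.mem_piFinset.2 fun i => ?_)
      have h7 : w i ∈ g := by rw [h4]; exact mem_univ _
      rw [hg, mem_filter] at h7
      exact h7.2
    rw [h6] at h5
    exact zero_ne_one h5
  · intro A hA B hB C hC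
    rw [mem_filter] at *
    refine ⟨mem_univ _, fun j => ?_⟩
    rw [cond_symm, cond_symm, hA.2 j, hB.2 j, hC.2 j]
    rfl

end Pool.Agent.Y474.CO
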